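import Pool.Agent.H21.ER2

namespace Pool.Agent.Results.MP_ca1301_lc.ERHard

open Pool.Agent.H11.PT Pool.Agent.H21.ER

theorem result : ∃ f : Qf → ℕ × Poly × Poly, PolyTime bits bits f ∧ ∀ φ,
    (f φ).2.1.In (f φ).1 ∧ (f φ).2.2.In (f φ).1 ∧ (ETR φ ↔ AffProj (f φ).1 (f φ).2.1 (f φ).2.2) := by
  have := am_pt
  exact ⟨fun φ => (nv (am φ.post), [], sos (am φ.post)), PT.polyTime (by fun_prop),
    fun φ => ⟨by simp [Poly.In], sos_in le_rfl, aff_iff φ⟩⟩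

end Pool.Agent.Results.MP_ca1301_lc.ERHard
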